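import Mathlib

/-!
# Competing branching random walks on `ℤ^d`: definitions
-/

set_option autoImplicit false
set_option linter.unusedSectionVars false

namespace Q288.BRW

open MeasureTheory Filter
open scoped ENNReal Pointwise

/-- A reproduction law on `ℤ^d`: an offspring distribution `μ` on `{1, 2, …}` with mean `> 1`, and a
displacement distribution `ν` whose support is exactly a finite set `K` containing the `2d` nearest
neighbours of the origin. -/
structure ReproLaw (d : ℕ) where
  μ : PMF ℕ
  μ_zero : μ 0 = 0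
  μ_mean : 1 < ∑' k : ℕ, μ k * (k : ℝ≥0∞)
  K : Finset (Fin d → ℤ)
  ν : PMF (Fin d → ℤ)
  nn : ∀ i, Pi.single i 1 ∈ K ∧ Pi.single i (-1) ∈ K
  supp : ∀ y, ν y ≠ 0 ↔ y ∈ K

/-- The marks of a particle: its number of children, and its displacement from its parent. -/
abbrev Mark (d : ℕ) := ℕ × (Fin d → ℤ)

/-- Marks for all labels; the children of the label `u` are `i :: u`. -/
abbrev Tree (d : ℕ) := List ℕ → Mark d

/-- All marks are independent, with laws `μ` and `ν`. -/
noncomputable def treeLaw {d : ℕ} (R : ReproLaw d) : Measure (Tree d) :=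
  Measure.infinitePi (fun _ : List ℕ => R.μ.toMeasure.prod R.ν.toMeasure)

/-- The label belongs to a particle of the branching random walk. -/
def Alive {d : ℕ} (ω : Tree d) : List ℕ → Prop
  | [] => True
  | i :: u => Alive ω u ∧ i < (ω u).1

/-- The position of a particle, when the initial particle is at `x₀`. -/
def pos {d : ℕ} (x₀ : Fin d → ℤ) (ω : Tree d) : List ℕ → (Fin d → ℤ)
  | [] => x₀
  | i :: u => pos x₀ ω u + (ω (i :: u)).2

/-- The site `x` receives a particle at time `n`. -/
def Hit {d : ℕ} (x₀ : Fin d → ℤ) (ω : Tree d) (x : Fin d → ℤ) (n : ℕ) : Prop :=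
  ∃ u : List ℕ, u.length = n ∧ Alive ω u ∧ pos x₀ ω u = x

/-- The cubes around the sites which have received a particle by time `n`. -/
def barD {d : ℕ} (ω : Tree d) (n : ℕ) : Set (Fin d → ℝ) :=
  {z | ∃ x : Fin d → ℤ, (∃ m ≤ n, Hit 0 ω x m) ∧
    ∀ i, (x i : ℝ) - 1 / 2 < z i ∧ z i ≤ (x i : ℝ) + 1 / 2}

/-- `A` is the asymptotic shape of the reproduction law `R`. -/
def IsShape {d : ℕ} (R : ReproLaw d) (A : Set (Fin d → ℝ)) : Prop :=
  Convex ℝ A ∧ IsCompact A ∧ (0 : Fin d → ℝ) ∈ interior A ∧
    ∀ᵐ ω ∂(treeLaw R), ∀ ε : ℝ, 0 < ε → ε < 1 → ∀ᶠ n : ℕ in atTop,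
      (1 - ε) • A ⊆ (n : ℝ)⁻¹ • barD ω n ∧ (n : ℝ)⁻¹ • barD ω n ⊆ (1 + ε) • A

/-- The two colours. -/
inductive Colour
  | red
  | blue

/-- The law of the two independent branching random walks, red and blue. -/
noncomputable def twoLaw {d : ℕ} (Rr Rb : ReproLaw d) : Measure (Tree d × Tree d) :=
  (treeLaw Rr).prod (treeLaw Rb)

/-- The first coordinate vector. -/
def e₁ {d : ℕ} (hd : 0 < d) : Fin d → ℤ := Pi.single ⟨0, hd⟩ 1

/-- `col` is the final colouring of the sites, for some tie-breaking rule: a site reached by red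
(started at `0`) strictly before blue (started at `e₁`) is red, a site reached by blue strictly
before red is blue, a site never reached is uncoloured, and a site first reached by both colours at
the same time has one of the two colours. -/
structure IsColouring {d : ℕ} (hd : 0 < d)
    (col : Tree d × Tree d → (Fin d → ℤ) → Option Colour) : Prop where
  red : ∀ ω x n, Hit 0 ω.1 x n → (∀ m ≤ n, ¬ Hit (e₁ hd) ω.2 x m) → col ω x = some Colour.red
  blue : ∀ ω x n, Hit (e₁ hd) ω.2 x n → (∀ m ≤ n, ¬ Hit 0 ω.1 x m) → col ω x = some Colour.blue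
  uncol : ∀ ω x, (∀ n, ¬ Hit 0 ω.1 x n ∧ ¬ Hit (e₁ hd) ω.2 x n) → col ω x = none
  tie : ∀ ω x n, Hit 0 ω.1 x n → Hit (e₁ hd) ω.2 x n → col ω x ≠ none

/-- Coexistence: infinitely many sites are coloured red and infinitely many blue. -/
def Coexist {d : ℕ} (col : (Fin d → ℤ) → Option Colour) : Prop :=
  {x | col x = some Colour.red}.Infinite ∧ {x | col x = some Colour.blue}.Infinite

end Q288.BRW
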