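import Mathlib

/-!
# Independent marks on the Ulam-Harris tree: recursions for block events
-/

set_option autoImplicit false
set_option linter.unusedSectionVars false

namespace Q288.BRW

open MeasureTheory Filter Topology
open scoped ENNReal

variable {E : Type} [MeasurableSpace E] (ρ : Measure E) [IsProbabilityMeasure ρ]

/-- independent marks -/
noncomputable def TL : Measure (List ℕ → E) := Measure.infinitePi (fun _ : List ℕ => ρ)

instance : IsProbabilityMeasure (TL ρ) := by unfold TL; infer_instance

/-- the subtree of the child `i` of the root -/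
def sub (i : ℕ) (ω : List ℕ → E) : List ℕ → E := fun u => ω (u ++ [i])

lemma measurable_sub (i : ℕ) : Measurable (sub i : (List ℕ → E) → List ℕ → E) := by
  unfold sub
  fun_prop

lemma map_comp_inj {κ ι : Type} (j : κ → ι) (hj : Function.Injective j) :
    (Measure.infinitePi (fun _ : ι => ρ)).map (fun ω => ω ∘ j) =
      Measure.infinitePi (fun _ : κ => ρ) := by
  classical
  apply Measure.eq_infinitePi
  intro s t ht
  have hm : Measurable (fun ω : ι → E => ω ∘ j) := by
    rw [measurable_pi_iff]; intro k; exact measurable_pi_apply _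
  rw [Measure.map_apply hm (MeasurableSet.pi s.countable_toSet fun i _ => ht i)]
  have e : (fun ω : ι → E => ω ∘ j) ⁻¹' (Set.pi s t) =
      Set.pi (s.image j : Finset ι) (fun u => {x | ∀ p, j p = u → x ∈ t p}) := by
    ext ω
    simp only [Set.mem_preimage, Set.mem_pi, Finset.mem_coe, Finset.mem_image, Function.comp,
      Set.mem_ofPred_eq]
    constructor
    · rintro h u ⟨p, hp, rfl⟩ q hq
      rw [hj hq]; exact h p hp
    · intro h p hp
      exact h (j p) ⟨p, hp, rfl⟩ p rfl
  have e2 : ∀ p, {x | ∀ q, j q = j p → x ∈ t q} = t p := by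
    intro p
    ext x
    simp only [Set.mem_ofPred_eq]
    constructor
    · intro h; exact h p rfl
    · intro h q hq; rw [hj hq]; exact h
  rw [e, Measure.infinitePi_pi]
  · rw [Finset.prod_image (fun a _ b _ h => hj h)]
    exact Finset.prod_congr rfl fun p _ => by rw [e2]
  · intro u hu
    obtain ⟨p, _, rfl⟩ := Finset.mem_image.1 hu
    rw [e2]; exact ht p

lemma sub_indep (m : ℕ) (C : Fin m → Set (List ℕ → E)) (hC : ∀ i, MeasurableSet (C i)) :
    TL ρ {ω | ∀ i : Fin m, sub i ω ∈ C i} = ∏ i, TL ρ (C i) := by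
  classical
  have hj : Function.Injective (fun p : Fin m × List ℕ => p.2 ++ [(p.1 : ℕ)]) := by
    rintro ⟨i, u⟩ ⟨k, v⟩ h
    simp only at h
    have h1 := List.append_inj' h rfl
    have h2 : (i : ℕ) = k := by simpa using h1.2
    rw [h1.1, Fin.ext h2]
  have h1 := map_comp_inj ρ (fun p : Fin m × List ℕ => p.2 ++ [(p.1 : ℕ)]) hj
  have h2 := Measure.infinitePi_map_curry (ι := Fin m) (κ := List ℕ) (X := E) (fun _ _ => ρ)
  rw [← h1, Measure.map_map (by fun_prop) (by
    rw [measurable_pi_iff]; intro k; exact measurable_pi_apply _)] at h2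
  have h3 : (⇑(MeasurableEquiv.curry (Fin m) (List ℕ) E) ∘ fun ω : List ℕ → E =>
      ω ∘ fun p : Fin m × List ℕ => p.2 ++ [(p.1 : ℕ)]) = fun ω (i : Fin m) => sub (i : ℕ) ω := rfl
  rw [h3] at h2
  have h4 : {ω : List ℕ → E | ∀ i : Fin m, sub i ω ∈ C i} =
      (fun ω (i : Fin m) => sub (i : ℕ) ω) ⁻¹' (Set.pi Set.univ C) := by
    ext ω; simp [Set.mem_pi]
  have hmeas : Measurable (fun (ω : List ℕ → E) (i : Fin m) => sub (i : ℕ) ω) := by
    rw [measurable_pi_iff]; intro i; exact measurable_sub _
  rw [h4]
  unfold TL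
  rw [← Measure.map_apply hmeas (MeasurableSet.univ_pi hC), h2, Measure.infinitePi_eq_pi,
    Measure.pi_pi]

lemma measurable_upd_root :
    Measurable (fun q : E × (List ℕ → E) => Function.update q.2 ([] : List ℕ) q.1) := by
  rw [measurable_pi_iff]
  intro y
  by_cases h : y = []
  · subst h; simp only [Function.update_self]; exact measurable_fst
  · simp only [Function.update_of_ne h]
    exact (measurable_pi_apply y).comp measurable_snd

lemma map_upd_root :
    (ρ.prod (TL ρ)).map (fun q => Function.update q.2 ([] : List ℕ) q.1) = TL ρ := by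
  unfold TL
  apply Measure.eq_infinitePi
  intro s t ht
  rw [Measure.map_apply measurable_upd_root (MeasurableSet.pi s.countable_toSet fun i _ => ht i)]
  by_cases hx : [] ∈ s
  · have e : (fun q : E × (List ℕ → E) => Function.update q.2 ([] : List ℕ) q.1) ⁻¹' (Set.pi s t) =
        (t []) ×ˢ (Set.pi (s.erase [] : Finset (List ℕ)) t) := by
      ext q
      simp only [Set.mem_preimage, Set.mem_pi, Set.mem_prod, Finset.mem_coe]
      constructor
      · intro h
        refine ⟨by simpa using h [] hx, fun i hi => ?_⟩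
        have := h i (Finset.mem_of_mem_erase hi)
        rwa [Function.update_of_ne (Finset.ne_of_mem_erase hi)] at this
      · rintro ⟨h1, h2⟩ i hi
        by_cases hix : i = []
        · subst hix; simpa using h1
        · rw [Function.update_of_ne hix]
          exact h2 i (Finset.mem_erase.2 ⟨hix, hi⟩)
    rw [e, Measure.prod_prod, Measure.infinitePi_pi _ (fun i _ => ht i),
      Finset.mul_prod_erase s (fun i => ρ (t i)) hx]
  · have e : (fun q : E × (List ℕ → E) => Function.update q.2 ([] : List ℕ) q.1) ⁻¹' (Set.pi s t) =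
        Set.univ ×ˢ (Set.pi s t) := by
      ext q
      simp only [Set.mem_preimage, Set.mem_pi, Set.mem_prod, Finset.mem_coe, Set.mem_univ, true_and]
      refine forall₂_congr fun i hi => ?_
      have hix : i ≠ [] := fun h => hx (h ▸ hi)
      rw [Function.update_of_ne hix]
    rw [e, Measure.prod_prod, Measure.infinitePi_pi _ (fun i _ => ht i), measure_univ, one_mul]

/-- Conditioning on the mark of the root. -/
lemma root_split (g : Set E) (hg : MeasurableSet g) (H1 H0 : Set (List ℕ → E))
    (m1 : MeasurableSet H1) (m0 : MeasurableSet H0)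
    (i1 : ∀ ω e, Function.update ω [] e ∈ H1 ↔ ω ∈ H1)
    (i0 : ∀ ω e, Function.update ω [] e ∈ H0 ↔ ω ∈ H0) :
    TL ρ {ω | (ω [] ∈ g → ω ∈ H1) ∧ (ω [] ∉ g → ω ∈ H0)} = ρ g * TL ρ H1 + ρ gᶜ * TL ρ H0 := by
  have hroot : Measurable (fun ω : List ℕ → E => ω []) := measurable_pi_apply _
  have hA : MeasurableSet {ω : List ℕ → E | (ω [] ∈ g → ω ∈ H1) ∧ (ω [] ∉ g → ω ∈ H0)} := by
    have : {ω : List ℕ → E | (ω [] ∈ g → ω ∈ H1) ∧ (ω [] ∉ g → ω ∈ H0)} =
        (((fun ω : List ℕ → E => ω []) ⁻¹' g)ᶜ ∪ H1) ∩ (((fun ω : List ℕ → E => ω []) ⁻¹' g) ∪ H0) := by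
      ext ω
      simp only [Set.mem_ofPred_eq, Set.mem_inter_iff, Set.mem_union, Set.mem_compl_iff,
        Set.mem_preimage]
      by_cases h : ω [] ∈ g <;> simp [h]
    rw [this]
    exact ((hroot hg).compl.union m1).inter ((hroot hg).union m0)
  conv_lhs => rw [← map_upd_root ρ, Measure.map_apply measurable_upd_root hA]
  rw [Measure.prod_apply (measurable_upd_root hA)]
  have h1 : ∀ e : E, TL ρ (Prod.mk e ⁻¹' ((fun q : E × (List ℕ → E) =>
      Function.update q.2 ([] : List ℕ) q.1) ⁻¹'
        {ω | (ω [] ∈ g → ω ∈ H1) ∧ (ω [] ∉ g → ω ∈ H0)})) =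
      g.indicator (fun _ => TL ρ H1) e + gᶜ.indicator (fun _ => TL ρ H0) e := by
    intro e
    by_cases he : e ∈ g
    · have : (Prod.mk e ⁻¹' ((fun q : E × (List ℕ → E) =>
        Function.update q.2 ([] : List ℕ) q.1) ⁻¹'
        {ω | (ω [] ∈ g → ω ∈ H1) ∧ (ω [] ∉ g → ω ∈ H0)})) = H1 := by
        ext ω
        simp [he, i1]
      rw [this]; simp [he]
    · have : (Prod.mk e ⁻¹' ((fun q : E × (List ℕ → E) =>
        Function.update q.2 ([] : List ℕ) q.1) ⁻¹'
        {ω | (ω [] ∈ g → ω ∈ H1) ∧ (ω [] ∉ g → ω ∈ H0)})) = H0 := by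
        ext ω
        simp [he, i0]
      rw [this]; simp [he]
  rw [lintegral_congr h1, lintegral_add_left (measurable_const.indicator hg),
    lintegral_indicator hg, lintegral_indicator hg.compl]
  simp [mul_comm]

/-- The event that all generation-`n` descendants (through children `< m`) reached with at most `j`
steps outside `g` have their subtree in `B`. -/
def HH (m : ℕ) (g : Set E) (B : Set (List ℕ → E)) : ℕ → ℕ → Set (List ℕ → E)
  | 0, _ => B
  | n + 1, 0 => {ω | ∀ i : Fin m, ω [(i : ℕ)] ∈ g → sub i ω ∈ HH m g B n 0}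
  | n + 1, j + 1 => {ω | ∀ i : Fin m, (ω [(i : ℕ)] ∈ g → sub i ω ∈ HH m g B n (j + 1)) ∧
      (ω [(i : ℕ)] ∉ g → sub i ω ∈ HH m g B n j)}

variable (m : ℕ) {g : Set E} (hg : MeasurableSet g) {B : Set (List ℕ → E)} (hB : MeasurableSet B)
  (iB : ∀ ω e, Function.update ω [] e ∈ B ↔ ω ∈ B)

include hg hB in
lemma HH_meas (n j : ℕ) : MeasurableSet (HH m g B n j) := by
  induction n generalizing j with
  | zero => cases j <;> exact hB
  | succ n ih =>
    cases j with
    | zero =>
      have : HH m g B (n + 1) 0 = ⋂ i : Fin m, (((fun ω : List ℕ → E => ω [(i : ℕ)]) ⁻¹' g)ᶜ ∪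
          (sub (i : ℕ)) ⁻¹' (HH m g B n 0)) := by
        ext ω
        simp only [HH, Set.mem_ofPred_eq, Set.mem_iInter, Set.mem_union, Set.mem_compl_iff,
          Set.mem_preimage, imp_iff_not_or]
      rw [this]
      exact MeasurableSet.iInter fun i => ((measurable_pi_apply _) hg).compl.union
        (measurable_sub _ (ih 0))
    | succ j =>
      have : HH m g B (n + 1) (j + 1) = ⋂ i : Fin m,
          ((((fun ω : List ℕ → E => ω [(i : ℕ)]) ⁻¹' g)ᶜ ∪
          (sub (i : ℕ)) ⁻¹' (HH m g B n (j + 1))) ∩ (((fun ω : List ℕ → E => ω [(i : ℕ)]) ⁻¹' g) ∪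
          (sub (i : ℕ)) ⁻¹' (HH m g B n j))) := by
        ext ω
        simp only [HH, Set.mem_ofPred_eq, Set.mem_iInter, Set.mem_inter_iff, Set.mem_union,
          Set.mem_compl_iff, Set.mem_preimage, imp_iff_not_or, not_not]
      rw [this]
      exact MeasurableSet.iInter fun i => (((measurable_pi_apply _) hg).compl.union
        (measurable_sub _ (ih (j + 1)))).inter (((measurable_pi_apply _) hg).union
        (measurable_sub _ (ih j)))

lemma sub_update (i : ℕ) (ω : List ℕ → E) (e : E) : sub i (Function.update ω [] e) = sub i ω := by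
  funext u
  unfold sub
  rw [Function.update_of_ne (by simp)]

include iB in
lemma HH_inv (n j : ℕ) (ω : List ℕ → E) (e : E) :
    Function.update ω [] e ∈ HH m g B n j ↔ ω ∈ HH m g B n j := by
  cases n with
  | zero => cases j <;> exact iB ω e
  | succ n =>
    cases j with
    | zero =>
      simp only [HH, Set.mem_ofPred_eq, sub_update]
      refine forall_congr' fun i => ?_
      rw [Function.update_of_ne (by simp)]
    | succ j =>
      simp only [HH, Set.mem_ofPred_eq, sub_update]
      refine forall_congr' fun i => ?_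
      rw [Function.update_of_ne (by simp)]

lemma sub_nil (i : ℕ) (ω : List ℕ → E) : sub i ω [] = ω [i] := rfl

include hg hB iB in
lemma HH_prob_zero (n : ℕ) : TL ρ (HH m g B (n + 1) 0) =
    (ρ g * TL ρ (HH m g B n 0) + ρ gᶜ) ^ m := by
  have h1 := root_split ρ g hg (HH m g B n 0) Set.univ (HH_meas m hg hB n 0) MeasurableSet.univ
    (HH_inv m iB n 0) (fun ω e => by simp)
  have h2 := sub_indep ρ m (fun _ => {ω | (ω [] ∈ g → ω ∈ HH m g B n 0) ∧ (ω [] ∉ g → ω ∈ Set.univ)})
    (fun _ => by
      have : {ω : List ℕ → E | (ω [] ∈ g → ω ∈ HH m g B n 0) ∧ (ω [] ∉ g → ω ∈ Set.univ)} =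
        ((fun ω : List ℕ → E => ω []) ⁻¹' g)ᶜ ∪ HH m g B n 0 := by
        ext ω
        simp only [Set.mem_ofPred_eq, Set.mem_univ, imp_true_iff, and_true, Set.mem_union,
          Set.mem_compl_iff, Set.mem_preimage, imp_iff_not_or]
      rw [this]
      exact ((measurable_pi_apply _) hg).compl.union (HH_meas m hg hB n 0))
  simp only [Finset.prod_const, Finset.card_univ, Fintype.card_fin] at h2
  rw [h1, measure_univ, mul_one] at h2
  rw [← h2]
  congr 1
  ext ω
  simp only [HH, Set.mem_ofPred_eq, sub_nil, Set.mem_univ, imp_true_iff, and_true]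

include hg hB iB in
lemma HH_prob_succ (n j : ℕ) : TL ρ (HH m g B (n + 1) (j + 1)) =
    (ρ g * TL ρ (HH m g B n (j + 1)) + ρ gᶜ * TL ρ (HH m g B n j)) ^ m := by
  have h1 := root_split ρ g hg (HH m g B n (j + 1)) (HH m g B n j) (HH_meas m hg hB n (j + 1))
    (HH_meas m hg hB n j) (HH_inv m iB n (j + 1)) (HH_inv m iB n j)
  have h2 := sub_indep ρ m (fun _ => {ω | (ω [] ∈ g → ω ∈ HH m g B n (j + 1)) ∧
      (ω [] ∉ g → ω ∈ HH m g B n j)})
    (fun _ => by
      have : {ω : List ℕ → E | (ω [] ∈ g → ω ∈ HH m g B n (j + 1)) ∧ (ω [] ∉ g → ω ∈ HH m g B n j)} =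
        (((fun ω : List ℕ → E => ω []) ⁻¹' g)ᶜ ∪ HH m g B n (j + 1)) ∩
        (((fun ω : List ℕ → E => ω []) ⁻¹' g) ∪ HH m g B n j) := by
        ext ω
        simp only [Set.mem_ofPred_eq, Set.mem_inter_iff, Set.mem_union,
          Set.mem_compl_iff, Set.mem_preimage, imp_iff_not_or, not_not]
      rw [this]
      exact (((measurable_pi_apply _) hg).compl.union (HH_meas m hg hB n (j + 1))).inter
        (((measurable_pi_apply _) hg).union (HH_meas m hg hB n j)))
  simp only [Finset.prod_const, Finset.card_univ, Fintype.card_fin] at h2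
  rw [h1] at h2
  rw [← h2]
  congr 1

/-- the real recursion -/
noncomputable def hh (m : ℕ) : ℕ → ℕ → ℝ → ℝ
  | 0, _, s => s
  | n + 1, 0, s => ((hh m n 0 s + 1) / 2) ^ m
  | n + 1, j + 1, s => ((hh m n (j + 1) s + hh m n j s) / 2) ^ m

include hg hB iB in
lemma HH_real (hg2 : ρ g = 2⁻¹) (n j : ℕ) :
    (TL ρ).real (HH m g B n j) = hh m n j ((TL ρ).real B) := by
  have hgc : ρ gᶜ = 2⁻¹ := by
    rw [prob_compl_eq_one_sub hg, hg2]
    exact ENNReal.one_sub_inv_two
  induction n generalizing j with
  | zero => cases j <;> rfl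
  | succ n ih =>
    cases j with
    | zero =>
      rw [Measure.real, HH_prob_zero ρ m hg hB iB, hg2, hgc, ENNReal.toReal_pow,
        ENNReal.toReal_add (by finiteness) (by finiteness), ENNReal.toReal_mul]
      have := ih 0
      rw [Measure.real] at this
      rw [this, hh]
      congr 1
      simp only [ENNReal.toReal_inv, ENNReal.toReal_ofNat]
      ring
    | succ j =>
      rw [Measure.real, HH_prob_succ ρ m hg hB iB, hg2, hgc, ENNReal.toReal_pow,
        ENNReal.toReal_add (by finiteness) (by finiteness), ENNReal.toReal_mul, ENNReal.toReal_mul]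
      have h1 := ih (j + 1)
      have h2 := ih j
      rw [Measure.real] at h1 h2
      rw [h1, h2, hh]
      congr 1
      simp only [ENNReal.toReal_inv, ENNReal.toReal_ofNat]
      ring

/-- subtree of a label -/
def subl (ω : List ℕ → E) (u : List ℕ) : List ℕ → E := fun v => ω (v ++ u)

/-- number of steps outside `g` on the way to `u` -/
def bad (g : Set E) [DecidablePred (· ∈ g)] (ω : List ℕ → E) : List ℕ → ℕ
  | [] => 0
  | i :: u => bad g ω u + if ω (i :: u) ∈ g then 0 else 1

lemma bad_append (g : Set E) [DecidablePred (· ∈ g)] (ω : List ℕ → E) (i : ℕ) (u : List ℕ) :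
    bad g ω (u ++ [i]) = bad g (sub i ω) u + if ω [i] ∈ g then 0 else 1 := by
  induction u with
  | nil => simp [bad]
  | cons k u ih =>
    have e : sub i ω (k :: u) = ω (k :: (u ++ [i])) := rfl
    simp only [List.cons_append, bad, ih, e]
    ring

lemma HH_iff (g : Set E) [DecidablePred (· ∈ g)] (B : Set (List ℕ → E)) (n j : ℕ)
    (ω : List ℕ → E) : ω ∈ HH m g B n j ↔
      ∀ u : List ℕ, u.length = n → (∀ i ∈ u, i < m) → bad g ω u ≤ j → subl ω u ∈ B := by
  induction n generalizing j ω with
  | zero =>
    have h0 : HH m g B 0 j = B := by cases j <;> rfl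
    rw [h0]
    constructor
    · intro h u hu _ _
      rw [List.length_eq_zero_iff.1 hu]
      have : subl ω [] = ω := by funext v; simp [subl]
      rw [this]; exact h
    · intro h
      have := h [] rfl (by simp) (by simp [bad])
      have e : subl ω [] = ω := by funext v; simp [subl]
      rwa [e] at this
  | succ n ih =>
    have hsubl : ∀ (i : ℕ) (u : List ℕ), subl ω (u ++ [i]) = subl (sub i ω) u := by
      intro i u
      funext v
      simp [subl, sub]
    have key : (∀ u : List ℕ, u.length = n + 1 → (∀ i ∈ u, i < m) → bad g ω u ≤ j → subl ω u ∈ B) ↔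
        ∀ i : Fin m, ∀ u : List ℕ, u.length = n → (∀ i ∈ u, i < m) →
          bad g (sub i ω) u + (if ω [(i : ℕ)] ∈ g then 0 else 1) ≤ j → subl (sub i ω) u ∈ B := by
      constructor
      · intro h i u hu hm hb
        rw [← hsubl]
        apply h (u ++ [(i : ℕ)]) (by simp [hu])
        · intro k hk
          rcases List.mem_append.1 hk with hk | hk
          · exact hm k hk
          · rw [List.mem_singleton.1 hk]; exact i.2
        · rw [bad_append]; exact hb
      · intro h u hu hm hb
        rcases List.eq_nil_or_concat u with h0 | ⟨v, i, hv⟩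
        · rw [h0] at hu; simp at hu
        · rw [List.concat_eq_append] at hv
          subst hv
          have hi : i < m := hm i (by simp)
          have hlen : v.length = n := by simpa using hu
          have := h ⟨i, hi⟩ v hlen (fun k hk => hm k (by simp [hk])) (by
            rw [bad_append] at hb; exact hb)
          rw [hsubl]; exact this
    rw [key]
    cases j with
    | zero =>
      simp only [HH, Set.mem_ofPred_eq]
      refine forall_congr' fun i => ?_
      by_cases hi : ω [(i : ℕ)] ∈ g
      · simp only [hi, true_imp_iff, if_true, add_zero]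
        exact ih 0 _
      · simp only [hi, false_imp_iff, if_false, true_iff]
        intro u _ _ hb
        omega
    | succ j =>
      simp only [HH, Set.mem_ofPred_eq]
      refine forall_congr' fun i => ?_
      by_cases hi : ω [(i : ℕ)] ∈ g
      · simp only [hi, true_imp_iff, if_true, add_zero, not_true_eq_false, false_imp_iff, and_true]
        exact ih (j + 1) _
      · simp only [hi, false_imp_iff, if_false, not_false_eq_true, true_imp_iff, true_and]
        rw [ih j]
        refine forall_congr' fun u => forall_congr' fun _ => forall_congr' fun _ => ?_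
        have : bad g (sub (i : ℕ) ω) u + 1 ≤ j + 1 ↔ bad g (sub (i : ℕ) ω) u ≤ j := by omega
        rw [this]

end Q288.BRW
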