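import Mathlib
import Pool.Agent.Q288.BRW.Tree

/-!
# Almost sure statements for the extremal particles
-/

set_option autoImplicit false
set_option linter.unusedSectionVars false

namespace Q288.BRW

open MeasureTheory Filter Topology
open scoped ENNReal

/-! ### The real recursion -/

lemma hh_nonneg (m n j : ℕ) {s : ℝ} (hs : 0 ≤ s) : 0 ≤ hh m n j s := by
  induction n generalizing j with
  | zero => cases j <;> simpa [hh] using hs
  | succ n ih =>
    cases j with
    | zero => rw [hh]; have := ih 0; positivity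
    | succ j => rw [hh]; have := ih j; have := ih (j + 1); positivity

lemma hh_le_one (m n j : ℕ) {s : ℝ} (hs : 0 ≤ s) (hs1 : s ≤ 1) : hh m n j s ≤ 1 := by
  induction n generalizing j with
  | zero => cases j <;> simpa [hh] using hs1
  | succ n ih =>
    cases j with
    | zero =>
      rw [hh]
      apply pow_le_one₀
      · have := hh_nonneg m n 0 hs; positivity
      · have := ih 0; linarith
    | succ j =>
      rw [hh]
      apply pow_le_one₀
      · have := hh_nonneg m n j hs; have := hh_nonneg m n (j + 1) hs; positivity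
      · have := ih j; have := ih (j + 1); linarith

lemma hh_mono (m n j : ℕ) {s t : ℝ} (hs : 0 ≤ s) (hst : s ≤ t) : hh m n j s ≤ hh m n j t := by
  induction n generalizing j with
  | zero => cases j <;> simpa [hh] using hst
  | succ n ih =>
    cases j with
    | zero =>
      rw [hh, hh]
      apply pow_le_pow_left₀
      · have := hh_nonneg m n 0 hs; positivity
      · have := ih 0; linarith
    | succ j =>
      rw [hh, hh]
      apply pow_le_pow_left₀
      · have := hh_nonneg m n j hs; have := hh_nonneg m n (j + 1) hs; positivity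
      · have := ih j; have := ih (j + 1); linarith

lemma hh_succ_ge (m n j : ℕ) : hh m n j 0 ≤ hh m (n + 1) j 0 := by
  induction n generalizing j with
  | zero =>
    have := hh_nonneg m 1 j (le_refl (0 : ℝ))
    cases j <;> simpa [hh] using this
  | succ n ih =>
    cases j with
    | zero =>
      rw [hh, hh]
      apply pow_le_pow_left₀
      · have := hh_nonneg m n 0 (le_refl (0 : ℝ)); positivity
      · have := ih 0; linarith
    | succ j =>
      rw [hh, hh]
      apply pow_le_pow_left₀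
      · have := hh_nonneg m n j (le_refl (0 : ℝ))
        have := hh_nonneg m n (j + 1) (le_refl (0 : ℝ)); positivity
      · have := ih j; have := ih (j + 1); linarith

lemma hh_three (n : ℕ) : hh 3 n 0 0 ≤ 1 / 4 := by
  induction n with
  | zero => norm_num [hh]
  | succ n ih =>
    rw [hh]
    have h0 := hh_nonneg 3 n 0 (le_refl (0 : ℝ))
    calc ((hh 3 n 0 0 + 1) / 2) ^ 3 ≤ (5 / 8) ^ 3 := by
          apply pow_le_pow_left₀ (by positivity)
          linarith
      _ ≤ 1 / 4 := by norm_num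

lemma hh_two_tendsto (j : ℕ) : Tendsto (fun n => hh 2 n j 0) atTop (𝓝 1) := by
  have hmon : ∀ j, Monotone (fun n => hh 2 n j 0) := fun j =>
    monotone_nat_of_le_succ (fun n => hh_succ_ge 2 n j)
  have hbdd : ∀ j, BddAbove (Set.range (fun n => hh 2 n j 0)) := fun j =>
    ⟨1, by rintro _ ⟨n, rfl⟩; exact hh_le_one 2 n j le_rfl zero_le_one⟩
  have hconv : ∀ j, ∃ l, Tendsto (fun n => hh 2 n j 0) atTop (𝓝 l) := fun j =>
    ⟨_, tendsto_atTop_ciSup (hmon j) (hbdd j)⟩
  have key : ∀ (l l' : ℝ), l = ((l + l') / 2) ^ 2 → l' = 1 → l = 1 := by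
    intro l l' h h1
    subst h1
    nlinarith [sq_nonneg (l - 1)]
  induction j with
  | zero =>
    obtain ⟨l, hl⟩ := hconv 0
    have h1 : Tendsto (fun n => hh 2 (n + 1) 0 0) atTop (𝓝 l) := hl.comp (tendsto_add_atTop_nat 1)
    have h2 : Tendsto (fun n => hh 2 (n + 1) 0 0) atTop (𝓝 (((l + 1) / 2) ^ 2)) := by
      simp only [hh]
      exact ((hl.add_const 1).div_const 2).pow 2
    have h3 := tendsto_nhds_unique h1 h2
    rw [key l 1 h3 rfl] at hl
    exact hl
  | succ j ih =>
    obtain ⟨l, hl⟩ := hconv (j + 1)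
    have h1 : Tendsto (fun n => hh 2 (n + 1) (j + 1) 0) atTop (𝓝 l) :=
      hl.comp (tendsto_add_atTop_nat 1)
    have h2 : Tendsto (fun n => hh 2 (n + 1) (j + 1) 0) atTop (𝓝 (((l + 1) / 2) ^ 2)) := by
      simp only [hh]
      exact ((hl.add ih).div_const 2).pow 2
    have h3 := tendsto_nhds_unique h1 h2
    rw [key l 1 h3 rfl] at hl
    exact hl

lemma hh_one (m n j : ℕ) : hh m n j 1 = 1 := by
  induction n generalizing j with
  | zero => cases j <;> simp [hh]
  | succ n ih => cases j <;> simp [hh, ih]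

lemma hh_deriv (n : ℕ) : HasDerivAt (fun s => hh 2 n 0 s) 1 1 ∧
    HasDerivAt (fun s => hh 2 n 1 s) ((n : ℝ) + 1) 1 := by
  induction n with
  | zero =>
    constructor
    · simpa [hh] using hasDerivAt_id' (1 : ℝ)
    · simpa [hh] using hasDerivAt_id' (1 : ℝ)
  | succ n ih =>
    obtain ⟨h0, h1⟩ := ih
    constructor
    · have h2 := ((h0.add_const 1).div_const 2).pow 2
      simp only [hh]
      convert! h2 using 1
      simp only [hh_one]
      norm_num
    · have h2 := ((h1.add h0).div_const 2).pow 2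
      simp only [hh]
      convert! h2 using 1
      simp only [hh_one, Pi.add_apply]
      push_cast
      ring

lemma hh_fix (L : ℕ) (hL : 1 ≤ L) : ∃ s : ℝ, 0 ≤ s ∧ s < 1 ∧ hh 2 L 1 s ≤ s := by
  have h := (hh_deriv L).2
  have hpos : (1 : ℝ) < (L : ℝ) + 1 := by
    have : (1 : ℝ) ≤ L := by exact_mod_cast hL
    linarith
  rw [hasDerivAt_iff_tendsto_slope] at h
  have h1 : ∀ᶠ s in 𝓝[≠] (1 : ℝ), 1 < slope (fun s => hh 2 L 1 s) 1 s := Filter.Tendsto.eventually_const_lt hpos h
  have h2 : ∀ᶠ s in 𝓝[<] (1 : ℝ), 1 < slope (fun s => hh 2 L 1 s) 1 s :=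
    h1.filter_mono (nhdsWithin_mono _ (fun x hx => ne_of_lt hx))
  have h3 : ∀ᶠ s in 𝓝[<] (1 : ℝ), s ∈ Set.Ioo (0 : ℝ) 1 := Ioo_mem_nhdsLT (by norm_num)
  obtain ⟨s, hs1, hs2⟩ := (h2.and h3).exists
  refine ⟨s, hs2.1.le, hs2.2, ?_⟩
  rw [slope_def_field, hh_one] at hs1
  have hneg : s - 1 < 0 := by linarith [hs2.2]
  rw [lt_div_iff_of_neg hneg] at hs1
  linarith

/-! ### The zero-one argument -/

variable {E : Type} [MeasurableSpace E] (ρ : Measure E) [IsProbabilityMeasure ρ]

lemma subl_nil (ω : List ℕ → E) : subl ω [] = ω := by funext v; simp [subl]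

lemma subl_sub (ω : List ℕ → E) (i : ℕ) (u : List ℕ) : subl (sub i ω) u = subl ω (u ++ [i]) := by
  funext v
  simp [subl, sub]

lemma subl_subl (ω : List ℕ → E) (u v : List ℕ) : subl (subl ω u) v = subl ω (v ++ u) := by
  funext w
  simp [subl]

lemma measurable_subl (u : List ℕ) : Measurable (fun ω : List ℕ → E => subl ω u) := by
  unfold subl
  fun_prop

theorem exists_label (m : ℕ) (hm : 2 ≤ m) (N : ℕ → Set (List ℕ → E))
    (hN : ∀ k, MeasurableSet (N k)) (hmon : Monotone N) (q : ℝ) (hq1 : q < 1)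
    (hq : ∀ k, (TL ρ).real (N k) ≤ q) :
    ∀ᵐ ω ∂(TL ρ), ∃ u : List ℕ, (∀ i ∈ u, i < m) ∧ ∀ k, subl ω u ∉ N k := by
  classical
  set F : Set (List ℕ → E) := {ω | ∀ u : List ℕ, (∀ i ∈ u, i < m) → ∃ k, subl ω u ∈ N k} with hF
  have hFm : MeasurableSet F := by
    have : F = ⋂ u : List ℕ, ⋂ (_ : ∀ i ∈ u, i < m), ⋃ k, (fun ω => subl ω u) ⁻¹' (N k) := by
      ext ω; simp [hF]
    rw [this]
    exact MeasurableSet.iInter fun u => MeasurableSet.iInter fun _ =>
      MeasurableSet.iUnion fun k => measurable_subl u (hN k)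
  have h1 : TL ρ F ≤ (TL ρ F) ^ m := by
    have h2 := sub_indep ρ m (fun _ => F) (fun _ => hFm)
    simp only [Finset.prod_const, Finset.card_univ, Fintype.card_fin] at h2
    rw [← h2]
    apply measure_mono
    intro ω hω i u hu
    obtain ⟨k, hk⟩ := hω (u ++ [(i : ℕ)]) (by
      intro l hl
      rcases List.mem_append.1 hl with hl | hl
      · exact hu l hl
      · rw [List.mem_singleton.1 hl]; exact i.2)
    exact ⟨k, by rw [subl_sub]; exact hk⟩
  have h2 : TL ρ F ≤ ENNReal.ofReal q := by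
    have h3 : F ⊆ ⋃ k, N k := by
      intro ω hω
      obtain ⟨k, hk⟩ := hω [] (by simp)
      rw [subl_nil] at hk
      exact Set.mem_iUnion.2 ⟨k, hk⟩
    refine (measure_mono h3).trans ?_
    rw [hmon.measure_iUnion]
    refine iSup_le fun k => ?_
    have := hq k
    rw [Measure.real] at this
    rw [← ENNReal.ofReal_toReal (measure_ne_top (TL ρ) (N k))]
    exact ENNReal.ofReal_le_ofReal this
  have h3 : (TL ρ).real F = 0 := by
    have hp0 : 0 ≤ (TL ρ).real F := measureReal_nonneg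
    have hp1 : (TL ρ).real F ≤ max q 0 := by
      rw [Measure.real]
      have := ENNReal.toReal_mono ENNReal.ofReal_ne_top h2
      rwa [ENNReal.toReal_ofReal'] at this
    have hp1' : (TL ρ).real F < 1 := lt_of_le_of_lt hp1 (max_lt hq1 (by norm_num))
    have hp2 : (TL ρ).real F ≤ (TL ρ).real F ^ m := by
      rw [Measure.real, ← ENNReal.toReal_pow]
      exact ENNReal.toReal_mono (by finiteness) h1
    have hp3 : (TL ρ).real F ^ m ≤ (TL ρ).real F ^ 2 := pow_le_pow_of_le_one hp0 hp1'.le hm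
    nlinarith
  have h4 : TL ρ F = 0 := by
    rw [Measure.real, ENNReal.toReal_eq_zero_iff] at h3
    exact h3.resolve_right (measure_ne_top _ _)
  rw [ae_iff]
  refine measure_mono_null ?_ h4
  intro ω hω u hu
  simp only [Set.mem_ofPred_eq] at hω
  push Not at hω
  exact hω u hu

/-! ### The three statements -/

lemma bad_append' (g : Set E) [DecidablePred (· ∈ g)] (ω : List ℕ → E) (u v : List ℕ) :
    bad g ω (u ++ v) = bad g (subl ω v) u + bad g ω v := by
  induction u with
  | nil => simp [bad]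
  | cons k u ih =>
    have e : subl ω v (k :: u) = ω (k :: (u ++ v)) := rfl
    simp only [List.cons_append, bad, ih, e]
    ring

variable {g : Set E} [DecidablePred (· ∈ g)]

lemma HH_mono_n (m : ℕ) (n j : ℕ) :
    HH m g (∅ : Set (List ℕ → E)) n j ⊆ HH m g ∅ (n + 1) j := by
  intro ω hω
  rw [HH_iff] at hω ⊢
  intro u hu hm hb
  cases u with
  | nil => simp at hu
  | cons i v =>
    have h1 : bad g ω v ≤ j := by
      simp only [bad] at hb
      omega
    exact absurd (hω v (by simpa using hu) (fun k hk => hm k (by simp [hk])) h1)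
      (Set.notMem_empty _)

/-- three children: some particle has, for every `n`, a descendant after `n` steps in `g`. -/
theorem three_line (hg : MeasurableSet g) (hg2 : ρ g = 2⁻¹) :
    ∀ᵐ ω ∂(TL ρ), ∃ u : List ℕ, (∀ i ∈ u, i < 3) ∧ ∀ n, ∃ v : List ℕ, v.length = n ∧
      (∀ i ∈ v, i < 3) ∧ bad g (subl ω u) v = 0 := by
  filter_upwards [exists_label ρ 3 (by norm_num) (fun n => HH 3 g ∅ n 0)
    (fun n => HH_meas 3 hg MeasurableSet.empty n 0)
    (monotone_nat_of_le_succ fun n => HH_mono_n 3 n 0) (1 / 4) (by norm_num) (fun n => by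
      rw [HH_real ρ 3 hg MeasurableSet.empty (by simp) hg2]
      simpa using hh_three n)] with ω hω
  obtain ⟨u, hu, h⟩ := hω
  refine ⟨u, hu, fun n => ?_⟩
  have h1 : subl ω u ∉ HH 3 g ∅ n 0 := h n
  rw [HH_iff] at h1
  push Not at h1
  obtain ⟨v, hv1, hv2, hv3, _⟩ := h1
  exact ⟨v, hv1, hv2, Nat.le_zero.1 hv3⟩

/-- two children: for every `j` there are no particles with at most `j` bad steps from some
generation on. -/
theorem two_die (hg : MeasurableSet g) (hg2 : ρ g = 2⁻¹) :
    ∀ᵐ ω ∂(TL ρ), ∀ j, ∃ n, ∀ v : List ℕ, n ≤ v.length → (∀ i ∈ v, i < 2) → j < bad g ω v := by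
  rw [ae_all_iff]
  intro j
  have hmon : Monotone (fun n => HH 2 g (∅ : Set (List ℕ → E)) n j) :=
    monotone_nat_of_le_succ fun n => HH_mono_n 2 n j
  have h1 : Tendsto (fun n => TL ρ (HH 2 g (∅ : Set (List ℕ → E)) n j)) atTop
      (𝓝 (TL ρ (⋃ n, HH 2 g (∅ : Set (List ℕ → E)) n j))) := tendsto_measure_iUnion_atTop hmon
  have h2 : Tendsto (fun n => TL ρ (HH 2 g (∅ : Set (List ℕ → E)) n j)) atTop (𝓝 1) := by
    have h3 : ∀ n, TL ρ (HH 2 g (∅ : Set (List ℕ → E)) n j) = ENNReal.ofReal (hh 2 n j 0) := by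
      intro n
      have := HH_real ρ 2 hg MeasurableSet.empty (by simp) hg2 n j
      rw [Measure.real] at this
      rw [← ENNReal.ofReal_toReal (measure_ne_top (TL ρ) _), this]
      simp
    simp only [h3]
    have := ENNReal.tendsto_ofReal (hh_two_tendsto j)
    rwa [ENNReal.ofReal_one] at this
  have h3 := tendsto_nhds_unique h1 h2
  have hm : MeasurableSet (⋃ n, HH 2 g (∅ : Set (List ℕ → E)) n j) :=
    MeasurableSet.iUnion fun n => HH_meas 2 hg MeasurableSet.empty n j
  have h4 : ∀ᵐ ω ∂(TL ρ), ω ∈ ⋃ n, HH 2 g (∅ : Set (List ℕ → E)) n j := by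
    rw [ae_iff]
    have : {ω | ¬ ω ∈ ⋃ n, HH 2 g (∅ : Set (List ℕ → E)) n j} =
        (⋃ n, HH 2 g (∅ : Set (List ℕ → E)) n j)ᶜ := rfl
    rw [this, prob_compl_eq_one_sub hm, h3, tsub_self]
  filter_upwards [h4] with ω hω
  obtain ⟨n, hn⟩ := Set.mem_iUnion.1 hω
  refine ⟨n, fun v hv hm => ?_⟩
  have hn' : ω ∈ HH 2 g (∅ : Set (List ℕ → E)) v.length j := hmon hv hn
  rw [HH_iff] at hn'
  by_contra hc
  exact absurd (hn' v rfl hm (not_lt.1 hc)) (Set.notMem_empty _)

/-- the block events -/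
def BB (g : Set E) (L : ℕ) : ℕ → Set (List ℕ → E)
  | 0 => ∅
  | k + 1 => HH 2 g (BB g L k) L 1

lemma BB_meas (hg : MeasurableSet g) (L k : ℕ) : MeasurableSet (BB g L k) := by
  induction k with
  | zero => exact MeasurableSet.empty
  | succ k ih => exact HH_meas 2 hg ih L 1

lemma BB_inv (L k : ℕ) : ∀ (ω : List ℕ → E) (e : E),
    Function.update ω [] e ∈ BB g L k ↔ ω ∈ BB g L k := by
  induction k with
  | zero => intro ω e; simp [BB]
  | succ k ih => exact fun ω e => HH_inv 2 ih L 1 ω e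

lemma BB_mono (L k : ℕ) : BB g L k ⊆ BB g L (k + 1) := by
  induction k with
  | zero => exact Set.empty_subset _
  | succ k ih =>
    intro ω hω
    have hω' : ω ∈ HH 2 g (BB g L k) L 1 := hω
    show ω ∈ HH 2 g (BB g L (k + 1)) L 1
    rw [HH_iff] at hω' ⊢
    exact fun u h1 h2 h3 => ih (hω' u h1 h2 h3)

lemma BB_exists (L k : ℕ) (ω : List ℕ → E) (h : ω ∉ BB g L k) :
    ∃ v : List ℕ, v.length = k * L ∧ (∀ i ∈ v, i < 2) ∧ bad g ω v ≤ k := by
  induction k generalizing ω with
  | zero => exact ⟨[], by simp, by simp, by simp [bad]⟩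
  | succ k ih =>
    have h' : ω ∉ HH 2 g (BB g L k) L 1 := h
    rw [HH_iff] at h'
    push Not at h'
    obtain ⟨u, hu1, hu2, hu3, hu4⟩ := h'
    obtain ⟨v, hv1, hv2, hv3⟩ := ih _ hu4
    refine ⟨v ++ u, ?_, ?_, ?_⟩
    · rw [List.length_append, hv1, hu1]; ring
    · intro i hi
      rcases List.mem_append.1 hi with hi | hi
      · exact hv2 i hi
      · exact hu2 i hi
    · rw [bad_append']
      omega

/-- two children: for every `L ≥ 1` some particle has, for every `k`, a descendant after `k L` steps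
of which at most `k` are outside `g`. -/
theorem two_speed (hg : MeasurableSet g) (hg2 : ρ g = 2⁻¹) (L : ℕ) (hL : 1 ≤ L) :
    ∀ᵐ ω ∂(TL ρ), ∃ u : List ℕ, (∀ i ∈ u, i < 2) ∧ ∀ k : ℕ, ∃ v : List ℕ, v.length = k * L ∧
      (∀ i ∈ v, i < 2) ∧ bad g (subl ω u) v ≤ k := by
  obtain ⟨s, hs0, hs1, hs⟩ := hh_fix L hL
  filter_upwards [exists_label ρ 2 le_rfl (BB g L) (BB_meas hg L)
    (monotone_nat_of_le_succ (BB_mono L)) s hs1 (fun k => by
      induction k with
      | zero =>
        have : BB g L 0 = (∅ : Set (List ℕ → E)) := rfl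
        rw [this]; simpa using hs0
      | succ k ih =>
        have e : BB g L (k + 1) = HH 2 g (BB g L k) L 1 := rfl
        rw [e, HH_real ρ 2 hg (BB_meas hg L k) (BB_inv L k) hg2]
        exact (hh_mono 2 L 1 measureReal_nonneg ih).trans hs)] with ω hω
  obtain ⟨u, hu, h⟩ := hω
  exact ⟨u, hu, fun k => BB_exists L k _ (h k)⟩

end Q288.BRW
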