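import Mathlib
import Pool.Agent.Q288.BRW.Defs
import Pool.Agent.Q288.BRW.Prob

/-!
# Two reproduction laws on `ℤ`: `m` children, steps `±1`
-/

set_option autoImplicit false
set_option linter.unusedSectionVars false

namespace Q288.BRW

open MeasureTheory Filter Topology
open scoped ENNReal Pointwise

/-- the step `±1` -/
def stp (b : Bool) : Fin 1 → ℤ := fun _ => if b then 1 else -1

/-- the uniform distribution on `{-1, 1}` -/
noncomputable def nu1 : PMF (Fin 1 → ℤ) := (PMF.uniformOfFintype Bool).map stp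

lemma stp_inj : Function.Injective stp := by
  intro a b h
  have := congrFun h 0
  revert this
  cases a <;> cases b <;> simp [stp]

lemma nu1_apply (b : Bool) : nu1 (stp b) = 2⁻¹ := by
  unfold nu1
  rw [PMF.map_apply, tsum_bool]
  cases b <;> simp [stp_inj.eq_iff]

lemma nu1_supp (y : Fin 1 → ℤ) : nu1 y ≠ 0 ↔ y = stp true ∨ y = stp false := by
  constructor
  · intro h
    unfold nu1 at h
    rw [← PMF.mem_support_iff, PMF.mem_support_map_iff] at h
    obtain ⟨b, _, hb⟩ := h
    cases b
    · right; exact hb.symm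
    · left; exact hb.symm
  · rintro (rfl | rfl) <;> rw [nu1_apply] <;> simp

/-- `m` children, steps `±1`. -/
noncomputable def law1 (m : ℕ) (hm : 2 ≤ m) : ReproLaw 1 where
  μ := PMF.pure m
  μ_zero := by
    rw [PMF.pure_apply, if_neg (by omega)]
  μ_mean := by
    rw [tsum_eq_single m (by
      intro k hk
      rw [PMF.pure_apply, if_neg hk, zero_mul])]
    rw [PMF.pure_apply, if_pos rfl, one_mul]
    exact_mod_cast (by omega : 1 < m)
  K := {stp true, stp false}
  ν := nu1
  nn := by
    intro i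
    have hi : i = 0 := Subsingleton.elim _ _
    subst hi
    constructor
    · rw [Finset.mem_insert]
      left
      funext j
      have hj : j = 0 := Subsingleton.elim _ _
      subst hj
      simp [stp]
    · rw [Finset.mem_insert, Finset.mem_singleton]
      right
      funext j
      have hj : j = 0 := Subsingleton.elim _ _
      subst hj
      simp [stp]
  supp := by
    intro y
    rw [nu1_supp, Finset.mem_insert, Finset.mem_singleton]

/-- the mark law -/
noncomputable def rho (m : ℕ) : Measure (Mark 1) := (PMF.pure m).toMeasure.prod nu1.toMeasure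

instance (m : ℕ) : IsProbabilityMeasure (rho m) := by unfold rho; infer_instance

lemma treeLaw_eq (m : ℕ) (hm : 2 ≤ m) : treeLaw (law1 m hm) = TL (rho m) := rfl

/-- marks whose step is `σ` -/
def gs (b : Bool) : Set (Mark 1) := {e | e.2 = stp b}

instance (b : Bool) : DecidablePred (· ∈ gs b) := fun e => by unfold gs; exact decEq _ _

lemma gs_meas (b : Bool) : MeasurableSet (gs b) := DiscreteMeasurableSpace.forall_measurableSet _

lemma rho_gs (m : ℕ) (b : Bool) : rho m (gs b) = 2⁻¹ := by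
  have h : gs b = Set.univ ×ˢ {stp b} := by
    ext e
    simp [gs]
  rw [h, rho, Measure.prod_prod, measure_univ, one_mul,
    PMF.toMeasure_apply_singleton _ _ (measurableSet_singleton _), nu1_apply]

lemma rho_good (m : ℕ) : ∀ᵐ e ∂(rho m), e.1 = m ∧ (e ∈ gs true ∨ e ∈ gs false) := by
  have h1 : ∀ᵐ k ∂((PMF.pure m).toMeasure), k = m := by
    rw [ae_iff, PMF.toMeasure_apply_eq_zero_iff _ (DiscreteMeasurableSpace.forall_measurableSet _)]
    rw [PMF.support_pure]
    simp
  have h2 : ∀ᵐ y ∂(nu1.toMeasure), y = stp true ∨ y = stp false := by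
    rw [ae_iff, PMF.toMeasure_apply_eq_zero_iff _ (DiscreteMeasurableSpace.forall_measurableSet _)]
    rw [Set.disjoint_left]
    intro y hy
    rw [PMF.mem_support_iff, nu1_supp] at hy
    exact fun hc => hc hy
  have h3 : ∀ᵐ e ∂(rho m), e.1 = m := Measure.quasiMeasurePreserving_fst.ae h1
  have h4 : ∀ᵐ e ∂(rho m), e.2 = stp true ∨ e.2 = stp false :=
    Measure.quasiMeasurePreserving_snd.ae h2
  filter_upwards [h3, h4] with e a b using ⟨a, b⟩

lemma ae_good (m : ℕ) : ∀ᵐ ω ∂(TL (rho m)), ∀ u : List ℕ, (ω u).1 = m ∧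
    (ω u ∈ gs true ∨ ω u ∈ gs false) := by
  rw [ae_all_iff]
  intro u
  have := (measurePreserving_eval_infinitePi (fun _ : List ℕ => rho m) u).quasiMeasurePreserving.ae
    (rho_good m)
  exact this

/-- regular trees -/
def Reg (m : ℕ) (ω : Tree 1) : Prop := ∀ u : List ℕ, (ω u).1 = m ∧ (ω u ∈ gs true ∨ ω u ∈ gs false)

/-- the sign -/
def sg (b : Bool) : ℤ := if b then 1 else -1

lemma stp_zero (b : Bool) : stp b 0 = sg b := rfl

lemma alive_iff {m : ℕ} {ω : Tree 1} (h : Reg m ω) (u : List ℕ) :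
    Alive ω u ↔ ∀ i ∈ u, i < m := by
  induction u with
  | nil => simp [Alive]
  | cons i u ih =>
    rw [Alive, ih, (h u).1]
    simp only [List.mem_cons, forall_eq_or_imp]
    exact and_comm

lemma pos_eq {m : ℕ} {ω : Tree 1} (h : Reg m ω) (b : Bool) (x₀ : Fin 1 → ℤ) (u : List ℕ) :
    sg b * pos x₀ ω u 0 = sg b * x₀ 0 + ((u.length : ℤ) - 2 * (bad (gs b) ω u : ℤ)) := by
  induction u with
  | nil => simp [pos, bad]
  | cons i u ih =>
    rw [pos, Pi.add_apply, mul_add, ih, bad, List.length_cons]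
    have hsq : sg b * sg b = 1 := by cases b <;> rfl
    rcases (h (i :: u)).2 with h1 | h1
    · by_cases hb : b = true
      · subst hb
        rw [if_pos h1]
        have : (ω (i :: u)).2 = stp true := h1
        rw [this, stp_zero, hsq]
        push_cast; ring
      · have hb' : b = false := by simpa using hb
        subst hb'
        have h2 : (ω (i :: u)).2 = stp true := h1
        rw [if_neg (by
          intro h3
          have h4 : (ω (i :: u)).2 = stp false := h3
          rw [h2] at h4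
          exact absurd (stp_inj h4) (by simp))]
        rw [h2, stp_zero]
        simp only [sg]
        push_cast; ring
    · by_cases hb : b = true
      · subst hb
        have h2 : (ω (i :: u)).2 = stp false := h1
        rw [if_neg (by
          intro h3
          have h4 : (ω (i :: u)).2 = stp true := h3
          rw [h2] at h4
          exact absurd (stp_inj h4) (by simp))]
        rw [h2, stp_zero]
        simp only [sg]
        push_cast; ring
      · have hb' : b = false := by simpa using hb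
        subst hb'
        rw [if_pos h1]
        have : (ω (i :: u)).2 = stp false := h1
        rw [this, stp_zero, hsq]
        push_cast; ring

lemma step_abs {m : ℕ} {ω : Tree 1} (h : Reg m ω) (b : Bool) (x₀ : Fin 1 → ℤ) (i : ℕ)
    (u : List ℕ) : sg b * pos x₀ ω (i :: u) 0 ≤ sg b * pos x₀ ω u 0 + 1 := by
  rw [pos, Pi.add_apply, mul_add]
  rcases (h (i :: u)).2 with h1 | h1
  · have : (ω (i :: u)).2 = stp true := h1
    rw [this, stp_zero]
    cases b <;> simp [sg]
  · have : (ω (i :: u)).2 = stp false := h1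
    rw [this, stp_zero]
    cases b <;> simp [sg]

lemma bad_le (g : Set (Mark 1)) [DecidablePred (· ∈ g)] (ω : Tree 1) (u : List ℕ) :
    bad g ω u ≤ u.length := by
  induction u with
  | nil => simp [bad]
  | cons i u ih => rw [bad, List.length_cons]; split_ifs <;> omega

lemma ext1 {x y : Fin 1 → ℤ} (h : x 0 = y 0) : x = y := by
  funext j
  have hj : j = 0 := Subsingleton.elim _ _
  rw [hj, h]

/-- the ancestral line passes through all intermediate sites -/
lemma pass {m : ℕ} {ω : Tree 1} (h : Reg m ω) (b : Bool) (x₀ x : Fin 1 → ℤ) (u : List ℕ)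
    (hu : Alive ω u) (h1 : sg b * x₀ 0 ≤ sg b * x 0) (h2 : sg b * x 0 ≤ sg b * pos x₀ ω u 0) :
    ∃ n ≤ u.length, Hit x₀ ω x n := by
  have hs : ∀ a c : ℤ, sg b * a = sg b * c → a = c := by
    intro a c hac
    cases b <;> simpa [sg] using hac
  induction u with
  | nil =>
    refine ⟨0, le_rfl, [], rfl, trivial, ?_⟩
    apply ext1
    exact hs _ _ (le_antisymm h1 h2)
  | cons i u ih =>
    by_cases he : sg b * x 0 = sg b * pos x₀ ω (i :: u) 0
    · exact ⟨_, le_rfl, i :: u, rfl, hu, (ext1 (hs _ _ he)).symm⟩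
    · have h3 := step_abs h b x₀ i u
      obtain ⟨n, hn, hn2⟩ := ih hu.1 (by omega)
      exact ⟨n, hn.trans (by simp), hn2⟩

/-- The speed property. -/
def Spd (m : ℕ) (ω : Tree 1) : Prop := ∀ b : Bool, ∀ L : ℕ, 1 ≤ L →
  ∃ u : List ℕ, (∀ i ∈ u, i < m) ∧ ∀ k : ℕ, ∃ v : List ℕ, v.length = k * L ∧
      (∀ i ∈ v, i < m) ∧ bad (gs b) (subl ω u) v ≤ k

lemma spd_hit {m : ℕ} {ω : Tree 1} (h : Reg m ω) (hs : Spd m ω) (b : Bool) (L : ℕ) (hL : 3 ≤ L) :
    ∃ C : ℝ, ∀ x : Fin 1 → ℤ, 0 ≤ sg b * x 0 →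
      ∃ n : ℕ, (n : ℝ) ≤ ((L : ℝ) / (L - 2)) * ((sg b * x 0 : ℤ) : ℝ) + C ∧ Hit 0 ω x n := by
  obtain ⟨u, hu, hk⟩ := hs b L (by omega)
  have hL2 : (0 : ℝ) < (L : ℝ) - 2 := by
    have : (3 : ℝ) ≤ L := by exact_mod_cast hL
    linarith
  refine ⟨((L : ℝ) / (L - 2)) * u.length + L + u.length, fun x hx => ?_⟩
  obtain ⟨y, hy⟩ : ∃ y : ℤ, y = sg b * x 0 := ⟨_, rfl⟩
  rw [← hy] at hx ⊢
  obtain ⟨k, hkd⟩ : ∃ k : ℕ, k = ⌈((y : ℝ) + u.length) / (L - 2)⌉₊ := ⟨_, rfl⟩
  have hy0 : (0 : ℝ) ≤ y := by exact_mod_cast hx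
  have hk1 : ((y : ℝ) + u.length) / (L - 2) ≤ k := by rw [hkd]; exact Nat.le_ceil _
  have hk2 : (k : ℝ) < ((y : ℝ) + u.length) / (L - 2) + 1 := by
    rw [hkd]
    apply Nat.ceil_lt_add_one
    positivity
  obtain ⟨v, hv1, hv2, hv3⟩ := hk k
  have hal : Alive ω (v ++ u) := by
    rw [alive_iff h]
    intro i hi
    rcases List.mem_append.1 hi with hi | hi
    · exact hv2 i hi
    · exact hu i hi
  have hp := pos_eq h b 0 (v ++ u)
  rw [bad_append', List.length_append, hv1] at hp
  have hbu := bad_le (gs b) ω u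
  have hpos : y ≤ sg b * pos 0 ω (v ++ u) 0 := by
    rw [hp]
    have h1 : ((y : ℝ) + u.length) ≤ k * (L - 2) := by rwa [div_le_iff₀ hL2] at hk1
    have h2 : (y : ℤ) + u.length ≤ k * (L - 2) := by exact_mod_cast h1
    push_cast
    have h3 : (bad (gs b) (subl ω u) v : ℤ) ≤ k := by exact_mod_cast hv3
    have h4 : (bad (gs b) ω u : ℤ) ≤ u.length := by exact_mod_cast hbu
    simp only [Pi.zero_apply, mul_zero, zero_add]
    nlinarith
  obtain ⟨n, hn1, hn2⟩ := pass h b 0 x (v ++ u) hal (by simpa [← hy] using hx) (by rw [← hy]; exact hpos)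
  refine ⟨n, ?_, hn2⟩
  rw [List.length_append, hv1] at hn1
  have h5 : (n : ℝ) ≤ k * L + u.length := by exact_mod_cast hn1
  have hLpos : (0 : ℝ) < L := by linarith
  calc (n : ℝ) ≤ k * L + u.length := h5
    _ ≤ (((y : ℝ) + u.length) / (L - 2) + 1) * L + u.length := by gcongr
    _ = _ := by field_simp; ring

end Q288.BRW
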