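import Mathlib
import Pool.Agent.Q288.BRW.Laws

/-!
# Equal shapes without coexistence
-/

set_option autoImplicit false
set_option linter.unusedSectionVars false

namespace Q288.BRW

open MeasureTheory Filter Topology
open scoped ENNReal Pointwise

/-- the common shape -/
def AA : Set (Fin 1 → ℝ) := Metric.closedBall 0 1

lemma norm_eq (z : Fin 1 → ℝ) : ‖z‖ = |z 0| := by
  rw [Pi.norm_def]
  simp

lemma sg_cases (k : ℤ) : ∃ b : Bool, 0 ≤ sg b * k ∧ sg b * k = |k| := by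
  rcases le_total 0 k with h | h
  · exact ⟨true, by simpa [sg] using h, by simp [sg, abs_of_nonneg h]⟩
  · exact ⟨false, by simpa [sg] using h, by simp [sg, abs_of_nonpos h]⟩

lemma abs_pos_le {m : ℕ} {ω : Tree 1} (h : Reg m ω) (u : List ℕ) :
    |pos 0 ω u 0| ≤ (u.length : ℤ) := by
  have h1 := pos_eq h true 0 u
  have h2 := bad_le (gs true) ω u
  have h3 : (bad (gs true) ω u : ℤ) ≤ u.length := by exact_mod_cast h2
  simp only [sg, Pi.zero_apply, if_true, one_mul, zero_add] at h1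
  rw [h1, abs_le]
  constructor <;> omega

/-- Trees with the speed property have shape `[-1, 1]`. -/
lemma shape_of_spd {m : ℕ} {ω : Tree 1} (h : Reg m ω) (hs : Spd m ω) (ε : ℝ) (hε : 0 < ε)
    (hε1 : ε < 1) : ∀ᶠ n : ℕ in atTop,
      (1 - ε) • AA ⊆ (n : ℝ)⁻¹ • barD ω n ∧ (n : ℝ)⁻¹ • barD ω n ⊆ (1 + ε) • AA := by
  -- choose `L` with `L / (L - 2) ≤ 1 + ε`
  obtain ⟨L, hL3, hL⟩ : ∃ L : ℕ, 3 ≤ L ∧ (L : ℝ) / (L - 2) ≤ 1 + ε := by
    obtain ⟨N, hN⟩ := exists_nat_ge (2 * (1 + ε) / ε + 3)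
    have h3 : (3 : ℝ) ≤ N := by
      have : 0 ≤ 2 * (1 + ε) / ε := by positivity
      linarith
    refine ⟨N, by exact_mod_cast h3, ?_⟩
    rw [div_le_iff₀ (by linarith)]
    have h4 : 2 * (1 + ε) / ε ≤ N := by linarith
    rw [div_le_iff₀ hε] at h4
    nlinarith
  obtain ⟨C1, hC1⟩ := spd_hit h hs true L hL3
  obtain ⟨C0, hC0⟩ := spd_hit h hs false L hL3
  obtain ⟨C, hC⟩ : ∃ C : ℝ, C = max 0 (max C1 C0) := ⟨_, rfl⟩
  have hCp : 0 ≤ C := by rw [hC]; exact le_max_left _ _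
  have hit : ∀ x : Fin 1 → ℤ, ∃ n : ℕ, (n : ℝ) ≤ (1 + ε) * ((|x 0| : ℤ) : ℝ) + C ∧ Hit 0 ω x n := by
    intro x
    obtain ⟨b, hb1, hb2⟩ := sg_cases (x 0)
    have habs : (0 : ℝ) ≤ ((|x 0| : ℤ) : ℝ) := by exact_mod_cast abs_nonneg (x 0)
    cases b
    · obtain ⟨n, hn1, hn2⟩ := hC0 x hb1
      refine ⟨n, hn1.trans ?_, hn2⟩
      rw [hb2]
      have : C0 ≤ C := by rw [hC]; exact (le_max_right _ _).trans (le_max_right _ _)
      gcongr
    · obtain ⟨n, hn1, hn2⟩ := hC1 x hb1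
      refine ⟨n, hn1.trans ?_, hn2⟩
      rw [hb2]
      have : C1 ≤ C := by rw [hC]; exact (le_max_left _ _).trans (le_max_right _ _)
      gcongr
  have e1 : ∀ᶠ n : ℕ in atTop, ((1 + ε) / 2 + C) / ε ^ 2 ≤ (n : ℝ) :=
    tendsto_natCast_atTop_atTop.eventually_ge_atTop _
  have e2 : ∀ᶠ n : ℕ in atTop, 1 / (2 * ε) ≤ (n : ℝ) :=
    tendsto_natCast_atTop_atTop.eventually_ge_atTop _
  filter_upwards [e1, e2, eventually_gt_atTop 0] with n hn1 hn2 hn0
  have hn0' : (0 : ℝ) < n := by exact_mod_cast hn0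
  have hsmul : ∀ (c : ℝ) (z : Fin 1 → ℝ), 0 < c → (z ∈ c • AA ↔ |z 0| ≤ c) := by
    intro c z hc
    rw [Set.mem_smul_set_iff_inv_smul_mem₀ hc.ne', AA, mem_closedBall_zero_iff, norm_smul,
      norm_eq, norm_inv, Real.norm_of_nonneg hc.le, inv_mul_le_iff₀ hc, mul_one]
  constructor
  · intro z hz
    rw [hsmul _ _ (by linarith)] at hz
    rw [Set.mem_smul_set_iff_inv_smul_mem₀ (inv_pos.2 hn0').ne', inv_inv]
    obtain ⟨y, hy⟩ : ∃ y : ℝ, y = (n : ℝ) * z 0 := ⟨_, rfl⟩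
    have hyabs : |y| ≤ (1 - ε) * n := by
      rw [hy, abs_mul, abs_of_pos hn0', mul_comm]
      gcongr
    set k : ℤ := ⌈y - 1 / 2⌉ with hk
    have hk1 : y - 1 / 2 ≤ k := Int.le_ceil _
    have hk2 : (k : ℝ) < y - 1 / 2 + 1 := Int.ceil_lt_add_one _
    have hkabs : |(k : ℝ)| ≤ |y| + 1 / 2 := by
      rw [abs_le]
      have := neg_abs_le y
      have := le_abs_self y
      constructor <;> linarith
    obtain ⟨t, ht1, ht2⟩ := hit (fun _ => k)
    refine ⟨fun _ => k, ⟨t, ?_, ht2⟩, ?_⟩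
    · have h5 : (t : ℝ) ≤ n := by
        refine ht1.trans ?_
        have h6 : ((|k| : ℤ) : ℝ) ≤ (1 - ε) * n + 1 / 2 := by
          push_cast
          linarith
        have h7 : (1 + ε) / 2 + C ≤ ε ^ 2 * n := by
          rw [div_le_iff₀ (by positivity)] at hn1
          linarith
        calc (1 + ε) * ((|k| : ℤ) : ℝ) + C ≤ (1 + ε) * ((1 - ε) * n + 1 / 2) + C := by gcongr
          _ = n - ε ^ 2 * n + ((1 + ε) / 2 + C) := by ring
          _ ≤ n := by linarith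
      exact_mod_cast h5
    · intro i
      have hi : i = 0 := Subsingleton.elim _ _
      subst hi
      simp only [Pi.smul_apply, smul_eq_mul]
      rw [← hy]
      constructor <;> linarith
  · intro z hz
    rw [Set.mem_smul_set_iff_inv_smul_mem₀ (inv_pos.2 hn0').ne', inv_inv] at hz
    rw [hsmul _ _ (by linarith)]
    obtain ⟨x, ⟨t, ht, u, hu1, hu2, hu3⟩, hx⟩ := hz
    have hxi := hx 0
    simp only [Pi.smul_apply, smul_eq_mul] at hxi
    have h1 := abs_pos_le h u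
    rw [hu3, hu1] at h1
    have h2 : |(x 0 : ℝ)| ≤ n := by
      have h3 : |x 0| ≤ (n : ℤ) := h1.trans (by exact_mod_cast ht)
      exact_mod_cast h3
    have h3 : |(n : ℝ) * z 0| ≤ n + 1 / 2 := by
      rw [abs_le] at h2 ⊢
      constructor <;> linarith
    rw [abs_mul, abs_of_pos hn0'] at h3
    rw [div_le_iff₀ (by positivity)] at hn2
    have h4 : (n : ℝ) * |z 0| ≤ n * (1 + ε) := by nlinarith
    exact le_of_mul_le_mul_left h4 hn0'

lemma AA_basic : Convex ℝ AA ∧ IsCompact AA ∧ (0 : Fin 1 → ℝ) ∈ interior AA :=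
  ⟨convex_closedBall _ _, isCompact_closedBall _ _,
    Metric.ball_subset_interior_closedBall (Metric.mem_ball_self one_pos)⟩

lemma spd_three : ∀ᵐ ω ∂(TL (rho 3)), Spd 3 ω := by
  have h : ∀ b : Bool, ∀ᵐ ω ∂(TL (rho 3)), ∃ u : List ℕ, (∀ i ∈ u, i < 3) ∧ ∀ n, ∃ v : List ℕ,
      v.length = n ∧ (∀ i ∈ v, i < 3) ∧ bad (gs b) (subl ω u) v = 0 := fun b =>
    three_line (rho 3) (gs_meas b) (rho_gs 3 b)
  filter_upwards [h true, h false] with ω h1 h0 b L _
  cases b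
  · obtain ⟨u, hu, hv⟩ := h0
    refine ⟨u, hu, fun k => ?_⟩
    obtain ⟨v, a, b, c⟩ := hv (k * L)
    exact ⟨v, a, b, by omega⟩
  · obtain ⟨u, hu, hv⟩ := h1
    refine ⟨u, hu, fun k => ?_⟩
    obtain ⟨v, a, b, c⟩ := hv (k * L)
    exact ⟨v, a, b, by omega⟩

lemma spd_two : ∀ᵐ ω ∂(TL (rho 2)), Spd 2 ω := by
  have h : ∀ b : Bool, ∀ᵐ ω ∂(TL (rho 2)), ∀ L : ℕ, 1 ≤ L → ∃ u : List ℕ, (∀ i ∈ u, i < 2) ∧
      ∀ k : ℕ, ∃ v : List ℕ, v.length = k * L ∧
      (∀ i ∈ v, i < 2) ∧ bad (gs b) (subl ω u) v ≤ k := by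
    intro b
    rw [ae_all_iff]
    intro L
    by_cases hL : 1 ≤ L
    · filter_upwards [two_speed (rho 2) (gs_meas b) (rho_gs 2 b) L hL] with ω hω _ using hω
    · exact Filter.Eventually.of_forall fun ω hc => absurd hc hL
  filter_upwards [h true, h false] with ω h1 h0 b L hL
  cases b
  · exact h0 L hL
  · exact h1 L hL

theorem isShape_of (m : ℕ) (hm : 2 ≤ m) (hs : ∀ᵐ ω ∂(TL (rho m)), Spd m ω) :
    IsShape (law1 m hm) AA := by
  refine ⟨AA_basic.1, AA_basic.2.1, AA_basic.2.2, ?_⟩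
  rw [treeLaw_eq]
  filter_upwards [hs, ae_good m] with ω h1 h2 ε hε hε1
  exact shape_of_spd h2 h1 ε hε hε1

/-! ### No coexistence -/

/-- the deterministic part -/
lemma finite_blue {ω : Tree 1 × Tree 1} (h3 : Reg 3 ω.1) (h2 : Reg 2 ω.2)
    (hr : ∀ b : Bool, ∃ u : List ℕ, (∀ i ∈ u, i < 3) ∧ ∀ n, ∃ v : List ℕ,
      v.length = n ∧ (∀ i ∈ v, i < 3) ∧ bad (gs b) (subl ω.1 u) v = 0)
    (hb : ∀ b : Bool, ∀ j, ∃ n, ∀ v : List ℕ, n ≤ v.length → (∀ i ∈ v, i < 2) →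
      j < bad (gs b) ω.2 v)
    (col : (Fin 1 → ℤ) → Option Colour)
    (hcol : ∀ x n, Hit 0 ω.1 x n → (∀ m ≤ n, ¬ Hit (e₁ (by norm_num)) ω.2 x m) →
      col x = some Colour.red) : {x | col x = some Colour.blue}.Finite := by
  have key : ∀ b : Bool, ∃ M : ℤ, ∀ x : Fin 1 → ℤ, M ≤ sg b * x 0 → col x = some Colour.red := by
    intro b
    obtain ⟨u, hu, hv⟩ := hr b
    obtain ⟨n0, hn0⟩ := hb b (u.length + 1)
    refine ⟨u.length + n0 + 1, fun x hx => ?_⟩
    have hp := pos_eq h3 b 0 u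
    simp only [Pi.zero_apply, mul_zero, zero_add] at hp
    have hbu := bad_le (gs b) ω.1 u
    -- the red particle which hits `x`
    obtain ⟨n, hn⟩ : ∃ n : ℕ, (n : ℤ) = sg b * x 0 - sg b * pos 0 ω.1 u 0 := by
      refine ⟨(sg b * x 0 - sg b * pos 0 ω.1 u 0).toNat, Int.toNat_of_nonneg ?_⟩
      have : (0 : ℤ) ≤ bad (gs b) ω.1 u := by positivity
      have : (0 : ℤ) ≤ n0 := by positivity
      omega
    obtain ⟨v, hv1, hv2, hv3⟩ := hv n
    have hal : Alive ω.1 (v ++ u) := by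
      rw [alive_iff h3]
      intro i hi
      rcases List.mem_append.1 hi with hi | hi
      · exact hv2 i hi
      · exact hu i hi
    have hp2 := pos_eq h3 b 0 (v ++ u)
    rw [bad_append', hv3, List.length_append, hv1] at hp2
    simp only [Pi.zero_apply, mul_zero, zero_add] at hp2
    have hx2 : sg b * pos 0 ω.1 (v ++ u) 0 = sg b * x 0 := by
      rw [hp2]; push_cast; omega
    have hs : ∀ a c : ℤ, sg b * a = sg b * c → a = c := by
      intro a c hac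
      cases b <;> simpa [sg] using hac
    have hhit : Hit 0 ω.1 x (n + u.length) :=
      ⟨v ++ u, by rw [List.length_append, hv1], hal, ext1 (hs _ _ hx2)⟩
    refine hcol x _ hhit ?_
    rintro m hm ⟨w, hw1, hw2, hw3⟩
    rw [alive_iff h2] at hw2
    have hp3 := pos_eq h2 b (e₁ (by norm_num)) w
    rw [hw3, hw1] at hp3
    have he : (e₁ (by norm_num) : Fin 1 → ℤ) 0 = 1 := by simp [e₁]
    rw [he] at hp3
    have hsg : sg b * 1 ≤ 1 ∧ -1 ≤ sg b * 1 := by cases b <;> simp [sg]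
    have hm' : (m : ℤ) ≤ n + u.length := by exact_mod_cast hm
    have hbad0 : (0 : ℤ) ≤ bad (gs b) ω.2 w := by positivity
    have hbadu : (bad (gs b) ω.1 u : ℤ) ≤ u.length := by exact_mod_cast hbu
    have hbadu0 : (0 : ℤ) ≤ bad (gs b) ω.1 u := by positivity
    have h5 := hn0 w (by
      rw [hw1]
      have : (n0 : ℤ) ≤ m := by omega
      exact_mod_cast this) hw2
    have h6 : ((u.length : ℤ) + 1) < bad (gs b) ω.2 w := by exact_mod_cast h5
    omega
  obtain ⟨M1, hM1⟩ := key true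
  obtain ⟨M0, hM0⟩ := key false
  have hsub : {x | col x = some Colour.blue} ⊆
      (fun k : ℤ => (fun _ : Fin 1 => k)) '' (Set.Icc (-M0) M1) := by
    intro x hx
    refine ⟨x 0, ⟨?_, ?_⟩, (ext1 rfl)⟩
    · by_contra hc
      push Not at hc
      have := hM0 x (by simp [sg]; omega)
      rw [Set.mem_ofPred_eq, this] at hx
      cases hx
    · by_contra hc
      push Not at hc
      have := hM1 x (by simp [sg]; omega)
      rw [Set.mem_ofPred_eq, this] at hx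
      cases hx
  exact ((Set.finite_Icc _ _).image _).subset hsub

theorem no_coexist (col : Tree 1 × Tree 1 → (Fin 1 → ℤ) → Option Colour)
    (hcol : IsColouring (by norm_num) col) :
    ∀ᵐ ω ∂(twoLaw (law1 3 (by norm_num)) (law1 2 le_rfl)), ¬ Coexist (col ω) := by
  have h1 : ∀ᵐ ω ∂(twoLaw (law1 3 (by norm_num)) (law1 2 le_rfl)), Reg 3 ω.1 :=
    Measure.quasiMeasurePreserving_fst.ae (ae_good 3)
  have h2 : ∀ᵐ ω ∂(twoLaw (law1 3 (by norm_num)) (law1 2 le_rfl)), Reg 2 ω.2 := by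
    have : SFinite (treeLaw (law1 3 (by norm_num))) := by rw [treeLaw_eq]; infer_instance
    exact Measure.quasiMeasurePreserving_snd.ae (ae_good 2)
  have h3 : ∀ b : Bool, ∀ᵐ ω ∂(twoLaw (law1 3 (by norm_num)) (law1 2 le_rfl)),
      ∃ u : List ℕ, (∀ i ∈ u, i < 3) ∧ ∀ n, ∃ v : List ℕ,
      v.length = n ∧ (∀ i ∈ v, i < 3) ∧ bad (gs b) (subl ω.1 u) v = 0 := fun b =>
    Measure.quasiMeasurePreserving_fst.ae (three_line (rho 3) (gs_meas b) (rho_gs 3 b))
  have h4 : ∀ b : Bool, ∀ᵐ ω ∂(twoLaw (law1 3 (by norm_num)) (law1 2 le_rfl)),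
      ∀ j, ∃ n, ∀ v : List ℕ, n ≤ v.length → (∀ i ∈ v, i < 2) → j < bad (gs b) ω.2 v := by
    intro b
    exact Measure.quasiMeasurePreserving_snd.ae (two_die (rho 2) (gs_meas b) (rho_gs 2 b))
  filter_upwards [h1, h2, h3 true, h3 false, h4 true, h4 false] with ω a1 a2 a3 a4 a5 a6
  intro hc
  refine hc.2 (finite_blue a1 a2 ?_ ?_ (col ω) (fun x n => hcol.red ω x n))
  · intro b; cases b
    · exact a4
    · exact a3
  · intro b; cases b
    · exact a6
    · exact a5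

end Q288.BRW
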